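import Pool.Agent.Helper91.FS.Goals3

/-!
# Project FS (MP_0130f7_co), packet BUR2 (helper45)
-/

set_option autoImplicit false

namespace Pool.Agent.Helper45.FS

open Pool.Agent.Helper47.SR (Grp)
open Pool.Agent.Helper91.FS

/-- A transitive group of prime degree contains a cycle of full length. -/
theorem exists_coord (p : ℕ) [hp : Fact p.Prime] (G : Grp p)
    (htr : ∀ x y : Fin p, ∃ γ ∈ G, γ x = y) :
    ∃ σ ∈ G, ∃ e : ZMod p ≃ Fin p, ∀ i, σ (e i) = e (i + 1) := by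
  classical
  have hp0 : 0 < p := hp.out.pos
  let x₀ : Fin p := ⟨0, hp0⟩
  have hpre : MulAction.IsPretransitive G (Fin p) := ⟨fun x y => by
    obtain ⟨γ, hγ, h⟩ := htr x y
    exact ⟨⟨γ, hγ⟩, h⟩⟩
  have h1 : p ∣ Nat.card G := by
    have h2 := MulAction.index_stabilizer_of_transitive G x₀
    rw [Nat.card_eq_fintype_card, Fintype.card_fin] at h2
    have h3 := Subgroup.index_dvd_card (MulAction.stabilizer G x₀)
    rw [h2] at h3
    exact h3
  obtain ⟨σ, hσ⟩ := exists_prime_orderOf_dvd_card' p h1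
  have hσ' : orderOf (σ : Equiv.Perm (Fin p)) = p := by
    rw [Subgroup.orderOf_coe, hσ]
  have hcyc : (σ : Equiv.Perm (Fin p)).IsCycle := by
    refine Equiv.Perm.isCycle_of_prime_order' ?_ ?_
    · rw [hσ']
      exact hp.out
    · rw [hσ', Fintype.card_fin]
      omega
  have hsupp : (σ : Equiv.Perm (Fin p)).support = Finset.univ := by
    rw [← Finset.card_eq_iff_eq_univ, ← hcyc.orderOf, hσ', Fintype.card_fin]
  have hmov : ∀ x, (σ : Equiv.Perm (Fin p)) x ≠ x := by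
    intro x
    rw [← Equiv.Perm.mem_support, hsupp]
    exact Finset.mem_univ x
  let f : ZMod p → Fin p := fun i => ((σ : Equiv.Perm (Fin p)) ^ i.val) x₀
  have hf : ∀ n : ℕ, f (n : ZMod p) = ((σ : Equiv.Perm (Fin p)) ^ n) x₀ := by
    intro n
    show ((σ : Equiv.Perm (Fin p)) ^ ((n : ZMod p)).val) x₀ = _
    have h2 : (σ : Equiv.Perm (Fin p)) ^ (n % p) = (σ : Equiv.Perm (Fin p)) ^ n := by
      have h3 := pow_mod_orderOf (σ : Equiv.Perm (Fin p)) n
      rwa [hσ'] at h3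
    rw [ZMod.val_natCast, h2]
  have hsurj : Function.Surjective f := by
    intro y
    obtain ⟨n, hn⟩ := hcyc.exists_pow_eq (hmov x₀) (hmov y)
    exact ⟨(n : ZMod p), by rw [hf, hn]⟩
  have hbij : Function.Bijective f := by
    rw [Fintype.bijective_iff_surjective_and_card]
    exact ⟨hsurj, by rw [ZMod.card, Fintype.card_fin]⟩
  refine ⟨σ, σ.2, Equiv.ofBijective f hbij, fun i => ?_⟩
  show (σ : Equiv.Perm (Fin p)) (f i) = f (i + 1)
  have h3 : i + 1 = ((i.val + 1 : ℕ) : ZMod p) := by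
    push_cast
    rw [ZMod.natCast_zmod_val]
  rw [h3, hf, pow_succ', Equiv.Perm.mul_apply]

theorem pow_shift {p : ℕ} {σ : Equiv.Perm (Fin p)} {e : ZMod p ≃ Fin p}
    (h : ∀ i, σ (e i) = e (i + 1)) (n : ℕ) (i : ZMod p) : (σ ^ n) (e i) = e (i + n) := by
  induction n with
  | zero => simp
  | succ n ih =>
    rw [pow_succ', Equiv.Perm.mul_apply, ih, h]
    congr 1
    push_cast
    ring

theorem goal_BUR2 (hB : Goal_BUR1) : Goal_BUR2 := by
  classical
  intro p hp G htr hpairs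
  obtain ⟨x, y, x', y', hxy, hxy', hno⟩ := hpairs
  obtain ⟨σ, hσG, e, he⟩ := exists_coord p G htr
  refine ⟨e, ?_⟩
  -- the orbital
  have hO : ∀ i j : ZMod p, (∃ γ ∈ G, γ x = e (i - j) ∧ γ y = e 0) ↔
      ∃ γ ∈ G, γ x = e i ∧ γ y = e j := by
    intro i j
    constructor
    · rintro ⟨γ, hγ, h1, h2⟩
      refine ⟨σ ^ j.val * γ, G.mul_mem (G.pow_mem hσG _) hγ, ?_, ?_⟩
      · rw [Equiv.Perm.mul_apply, h1, pow_shift he, ZMod.natCast_zmod_val]
        congr 1
        ring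
      · rw [Equiv.Perm.mul_apply, h2, pow_shift he, ZMod.natCast_zmod_val]
        congr 1
        ring
    · rintro ⟨γ, hγ, h1, h2⟩
      refine ⟨σ ^ (-j).val * γ, G.mul_mem (G.pow_mem hσG _) hγ, ?_, ?_⟩
      · rw [Equiv.Perm.mul_apply, h1, pow_shift he, ZMod.natCast_zmod_val]
        congr 1
        ring
      · rw [Equiv.Perm.mul_apply, h2, pow_shift he, ZMod.natCast_zmod_val]
        congr 1
        ring
  let U : Finset (ZMod p) := Finset.univ.filter fun u => ∃ γ ∈ G, γ x = e u ∧ γ y = e 0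
  have hU : ∀ i j : ZMod p, i - j ∈ U ↔ ∃ γ ∈ G, γ x = e i ∧ γ y = e j := by
    intro i j
    rw [← hO i j]
    simp [U]
  have hne : U.Nonempty := by
    refine ⟨e.symm x - e.symm y, (hU _ _).2 ⟨1, G.one_mem, ?_, ?_⟩⟩
    · simp
    · simp
  have h0 : (0 : ZMod p) ∉ U := by
    intro h
    rw [← sub_self (0 : ZMod p), hU] at h
    obtain ⟨γ, -, h1, h2⟩ := h
    exact hxy (γ.injective (h1.trans h2.symm))
  have h1 : ∃ u, u ≠ 0 ∧ u ∉ U := by
    refine ⟨e.symm x' - e.symm y', ?_, ?_⟩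
    · intro h
      exact hxy' (e.symm.injective (sub_eq_zero.1 h))
    · intro h
      rw [hU] at h
      obtain ⟨γ, hγ, h2, h3⟩ := h
      refine hno γ hγ ⟨?_, ?_⟩
      · rw [h2, Equiv.apply_symm_apply]
      · rw [h3, Equiv.apply_symm_apply]
  intro γ hγ
  let π : Equiv.Perm (ZMod p) := (e.trans γ).trans e.symm
  have hπ : ∀ i, γ (e i) = e (π i) := by
    intro i
    simp [π]
  obtain ⟨a, b, hab⟩ := hB p U π hne h0 h1 (by
    intro i j hij
    rw [hU] at hij ⊢
    obtain ⟨δ, hδ, h2, h3⟩ := hij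
    refine ⟨γ * δ, G.mul_mem hγ hδ, ?_, ?_⟩
    · rw [Equiv.Perm.mul_apply, h2, hπ]
    · rw [Equiv.Perm.mul_apply, h3, hπ])
  have ha : a ≠ 0 := by
    intro h
    have h2 : π 0 = π 1 := by
      rw [hab, hab, h]
      ring
    exact zero_ne_one (π.injective h2)
  refine ⟨Units.mk0 a ha, Subgroup.mem_top _, b, fun i => ?_⟩
  rw [hπ, hab]
  rfl

end Pool.Agent.Helper45.FS
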